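import Mathlib
import Pool.Agent.U18.UB.Stm

set_option autoImplicit false

/-! Project UB (helper18), package CV (helper810): covariances. -/

namespace Pool.Agent.U810.UB

open MeasureTheory Set Filter Topology Pool.Agent.U18.UB
open scoped ENNReal InnerProductSpace

theorem nrm_neg {m : ℕ} {N : E m → ℝ} (h : Nrm N) (x : E m) : N (-x) = N x := by
  have h1 := h.smul (-1) x
  rw [neg_one_smul] at h1
  rw [h1]
  simp

theorem nrm_zero {m : ℕ} {N : E m → ℝ} (h : Nrm N) : N 0 = 0 := by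
  have h1 := h.smul 0 0
  simpa using h1

theorem nrm_nonneg {m : ℕ} {N : E m → ℝ} (h : Nrm N) (x : E m) : 0 ≤ N x := by
  by_cases hx : x = 0
  · rw [hx, nrm_zero h]
  · exact (h.pos x hx).le

theorem nrm_sum {m : ℕ} {N : E m → ℝ} (h : Nrm N) {ι : Type} (s : Finset ι) (f : ι → E m) :
    N (∑ j ∈ s, f j) ≤ ∑ j ∈ s, N (f j) := by
  classical
  induction s using Finset.induction_on with
  | empty => simp [nrm_zero h]
  | insert a s ha ih =>
    rw [Finset.sum_insert ha, Finset.sum_insert ha]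
    exact (h.add_le _ _).trans (by linarith)

theorem nrm_upper {m : ℕ} {N : E m → ℝ} (h : Nrm N) : ∃ C : ℝ, 0 ≤ C ∧ ∀ x, N x ≤ C * ‖x‖ := by
  refine ⟨∑ j : Fin m, N (EuclideanSpace.single j 1), Finset.sum_nonneg fun j _ => nrm_nonneg h _,
    fun x => ?_⟩
  have h1 : x = ∑ j : Fin m, x j • (EuclideanSpace.single j 1 : E m) := by
    have := (EuclideanSpace.basisFun (Fin m) ℝ).sum_repr x
    simpa using this.symm
  conv_lhs => rw [h1]
  refine (nrm_sum h _ _).trans ?_
  rw [Finset.sum_mul]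
  refine Finset.sum_le_sum fun j _ => ?_
  rw [h.smul, mul_comm]
  refine mul_le_mul_of_nonneg_left ?_ (nrm_nonneg h _)
  exact PiLp.norm_apply_le x j

theorem nrm_cont {m : ℕ} {N : E m → ℝ} (h : Nrm N) : Continuous N := by
  obtain ⟨C, hC, hC'⟩ := nrm_upper h
  have hL : LipschitzWith (Real.toNNReal C) N := by
    refine LipschitzWith.of_dist_le_mul fun x y => ?_
    rw [Real.coe_toNNReal _ hC, Real.dist_eq, dist_eq_norm, abs_le]
    have h1 : N x ≤ N (x - y) + N y := by
      have := h.add_le (x - y) y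
      rwa [sub_add_cancel] at this
    have h2 : N y ≤ N (y - x) + N x := by
      have := h.add_le (y - x) x
      rwa [sub_add_cancel] at this
    have h3 : N (y - x) = N (x - y) := by
      rw [← nrm_neg h, neg_sub]
    have h4 := hC' (x - y)
    constructor <;> linarith
  exact hL.continuous

theorem nrm_lower {m : ℕ} {N : E m → ℝ} (h : Nrm N) : ∃ c : ℝ, 0 < c ∧ ∀ x, c * ‖x‖ ≤ N x := by
  by_cases hne : (Metric.sphere (0 : E m) 1).Nonempty
  · obtain ⟨y, hy, hy'⟩ := (isCompact_sphere (0 : E m) 1).exists_isMinOn hne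
      (nrm_cont h).continuousOn
    have hy0 : y ≠ 0 := by
      rintro rfl
      simp at hy
    refine ⟨N y, h.pos y hy0, fun x => ?_⟩
    by_cases hx : x = 0
    · rw [hx, norm_zero, mul_zero, nrm_zero h]
    have hx' : 0 < ‖x‖ := norm_pos_iff.2 hx
    have h1 : N y ≤ N (‖x‖⁻¹ • x) := by
      refine hy' ?_
      rw [mem_sphere_zero_iff_norm, norm_smul, norm_inv, norm_norm, inv_mul_cancel₀ hx'.ne']
    rw [h.smul, abs_inv, abs_norm] at h1
    have h2 := mul_le_mul_of_nonneg_right h1 hx'.le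
    rwa [mul_assoc, mul_comm (N x), ← mul_assoc, inv_mul_cancel₀ hx'.ne', one_mul] at h2
  · refine ⟨1, one_pos, fun x => ?_⟩
    have hx : x = 0 := by
      by_contra hx
      apply hne
      refine ⟨‖x‖⁻¹ • x, ?_⟩
      rw [mem_sphere_zero_iff_norm, norm_smul, norm_inv, norm_norm,
        inv_mul_cancel₀ (norm_pos_iff.2 hx).ne']
    rw [hx, norm_zero, mul_zero, nrm_zero h]

theorem ball_meas {m : ℕ} {N : E m → ℝ} (h : Nrm N) : MeasurableSet (ball N) :=
  (isClosed_le (nrm_cont h) continuous_const).measurableSet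

theorem ball_prob {m : ℕ} {N : E m → ℝ} (h : Nrm N) : IsProbabilityMeasure (un (ball N)) := by
  have hpos : volume (ball N) ≠ 0 := by
    have h1 : IsOpen {x : E m | N x < 1} := isOpen_lt (nrm_cont h) continuous_const
    have h2 : 0 < volume {x : E m | N x < 1} := h1.measure_pos volume ⟨0, by
      change N 0 < 1
      rw [nrm_zero h]
      exact one_pos⟩
    exact (h2.trans_le (measure_mono fun x (hx : N x < 1) => hx.le)).ne'
  have hfin : volume (ball N) ≠ ∞ := by
    obtain ⟨c, hc, hc'⟩ := nrm_lower h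
    have h1 : ball N ⊆ Metric.closedBall (0 : E m) c⁻¹ := by
      intro x (hx : N x ≤ 1)
      rw [mem_closedBall_zero_iff, ← one_div, le_div_iff₀ hc, mul_comm]
      exact (hc' x).trans hx
    exact ((measure_mono h1).trans_lt measure_closedBall_lt_top).ne
  constructor
  unfold un
  rw [Measure.smul_apply, Measure.restrict_apply_univ, smul_eq_mul, ENNReal.inv_mul_cancel hpos hfin]

/-- the reflection in one block -/
def rf {b : ℕ} {m : Fin b → ℕ} (i : Fin b) (x : ∀ j, E (m j)) : ∀ j, E (m j) :=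
  fun j => if j = i then -x j else x j

theorem rf_rf {b : ℕ} {m : Fin b → ℕ} (i : Fin b) (x : ∀ j, E (m j)) : rf i (rf i x) = x := by
  funext j
  unfold rf
  split_ifs with h
  · exact neg_neg _
  · rfl

theorem rf_mp {b : ℕ} {m : Fin b → ℕ} (i : Fin b) :
    MeasurePreserving (rf i : (∀ j, E (m j)) → ∀ j, E (m j)) volume volume := by
  have h1 : ∀ j, MeasurePreserving (fun y : E (m j) => if j = i then -y else y) volume volume := by
    intro j
    by_cases hj : j = i
    · simp only [hj, if_true]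
      exact Measure.measurePreserving_neg _
    · simp only [hj, if_false]
      exact MeasurePreserving.id _
  exact volume_preserving_pi h1

theorem rf_bs {b : ℕ} {m : Fin b → ℕ} {N : ∀ i, E (m i) → ℝ} (hN : ∀ i, Nrm (N i))
    (D : Set (Fin b → ℝ)) (i : Fin b) : rf i ⁻¹' bs N D = bs N D := by
  ext x
  change (fun j => N j (rf i x j)) ∈ D ↔ (fun j => N j (x j)) ∈ D
  have h1 : (fun j => N j (rf i x j)) = fun j => N j (x j) := by
    funext j
    unfold rf
    split_ifs with h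
    · exact nrm_neg (hN j) _
    · rfl
  rw [h1]

theorem rf_un {b : ℕ} {m : Fin b → ℕ} {N : ∀ i, E (m i) → ℝ} (hN : ∀ i, Nrm (N i))
    (D : Set (Fin b → ℝ)) (i : Fin b) :
    MeasurePreserving (rf i : (∀ j, E (m j)) → ∀ j, E (m j)) (un (bs N D)) (un (bs N D)) := by
  have hemb : MeasurableEmbedding (rf i : (∀ j, E (m j)) → ∀ j, E (m j)) := by
    let e : (∀ j, E (m j)) ≃ᵐ (∀ j, E (m j)) :=
      { toFun := rf i, invFun := rf i, left_inv := rf_rf i, right_inv := rf_rf i,
        measurable_toFun := (rf_mp i).measurable, measurable_invFun := (rf_mp i).measurable }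
    exact e.measurableEmbedding
  have h1 := (rf_mp (m := m) i).restrict_preimage_emb hemb (bs N D)
  rw [rf_bs hN] at h1
  unfold un
  exact h1.smul_measure _

theorem int_odd {b : ℕ} {m : Fin b → ℕ} {N : ∀ i, E (m i) → ℝ} (hN : ∀ i, Nrm (N i))
    (D : Set (Fin b → ℝ)) (i : Fin b) {g : (∀ j, E (m j)) → ℝ} (hg : ∀ x, g (rf i x) = - g x) :
    ∫ x, g x ∂(un (bs N D)) = 0 := by
  have hemb : MeasurableEmbedding (rf i : (∀ j, E (m j)) → ∀ j, E (m j)) := by
    let e : (∀ j, E (m j)) ≃ᵐ (∀ j, E (m j)) :=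
      { toFun := rf i, invFun := rf i, left_inv := rf_rf i, right_inv := rf_rf i,
        measurable_toFun := (rf_mp i).measurable, measurable_invFun := (rf_mp i).measurable }
    exact e.measurableEmbedding
  have h1 := (rf_un hN D i).integral_comp hemb g
  simp only [hg] at h1
  rw [integral_neg] at h1
  linarith

theorem bs_meas {b : ℕ} {m : Fin b → ℕ} {N : ∀ i, E (m i) → ℝ} (hN : ∀ i, Nrm (N i))
    {D : Set (Fin b → ℝ)} (hD : IsClosed D) : MeasurableSet (bs N D) := by
  have h1 : Continuous fun x : (∀ i, E (m i)) => fun i => N i (x i) :=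
    continuous_pi fun i => (nrm_cont (hN i)).comp (continuous_apply i)
  exact (hD.preimage h1).measurableSet

/-- the coordinates are bounded on the body -/
theorem bs_bdd {b : ℕ} {m : Fin b → ℕ} {N : ∀ i, E (m i) → ℝ} (hN : ∀ i, Nrm (N i))
    {D : Set (Fin b → ℝ)} (hD : IsCompact D) (i : Fin b) :
    ∃ R : ℝ, 0 ≤ R ∧ ∀ x ∈ bs N D, ‖x i‖ ≤ R := by
  obtain ⟨r, hr⟩ := hD.isBounded.exists_norm_le
  obtain ⟨c, hc, hc'⟩ := nrm_lower (hN i)
  refine ⟨|r| / c, by positivity, fun x hx => ?_⟩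
  have h1 := hr _ hx
  have h2 : |N i (x i)| ≤ r := (norm_le_pi_norm (fun i => N i (x i)) i).trans h1
  rw [le_div_iff₀ hc, mul_comm]
  exact (hc' _).trans ((le_abs_self _).trans (h2.trans (le_abs_self _)))

theorem ae_ball {b : ℕ} {m : Fin b → ℕ} {N : ∀ i, E (m i) → ℝ} (hN : ∀ i, Nrm (N i))
    (i : Fin b) : ∀ᵐ z ∂(Pz N), z i ∈ ball (N i) := by
  have hp : ∀ j, IsProbabilityMeasure (un (ball (N j))) := fun j => ball_prob (hN j)
  have h1 : ∀ᵐ y ∂(un (ball (N i))), y ∈ ball (N i) :=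
    Measure.ae_smul_measure (ae_restrict_mem (ball_meas (hN i))) _
  exact (measurePreserving_eval (fun j => un (ball (N j))) i).quasiMeasurePreserving.ae h1

theorem t_CV : S_AVG → S_CV := by
  intro hA c0 b m N D hc0 hm hB hD
  have hN : ∀ i, Nrm (N i) := fun i => (hB i).nrm
  obtain ⟨a1, a2, a3, a4, a5⟩ := hA b m N hm hN D hD
  have hp : ∀ j, IsProbabilityMeasure (un (ball (N j))) := fun j => ball_prob (hN j)
  refine ⟨fun i θ => ?_, fun i j θ θ' hij => ?_, fun i M hM hP θ => ?_⟩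
  · refine int_odd hN D i fun x => ?_
    unfold rf
    rw [if_pos rfl, inner_neg_left]
  · refine int_odd hN D i fun x => ?_
    unfold rf
    rw [if_pos rfl, if_neg (Ne.symm hij), inner_neg_left, neg_mul]
  · by_cases hθ : θ = 0
    · subst hθ
      simp
    have hθ0 : 0 < ‖θ‖ := norm_pos_iff.2 hθ
    -- the integral over the ball
    have hint : Integrable (fun y : E (m i) => ⟪y, θ⟫_ℝ ^ 2) (un (ball (N i))) := by
      by_contra hcon
      have h1 := (hB i).cov θ
      rw [integral_undef hcon] at h1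
      have : 0 < ‖θ‖ ^ 2 := by positivity
      linarith
    have hball : ∫⁻ y, ENNReal.ofReal (⟪y, θ⟫_ℝ ^ 2) ∂(un (ball (N i))) =
        ENNReal.ofReal (‖θ‖ ^ 2) := by
      rw [← ofReal_integral_eq_lintegral_ofReal hint (ae_of_all _ fun y => sq_nonneg _),
        (hB i).cov θ]
    have hmeas : Measurable fun x : (∀ j, E (m j)) => ENNReal.ofReal (⟪x i, θ⟫_ℝ ^ 2) := by
      refine ENNReal.measurable_ofReal.comp ?_
      exact (((continuous_apply i).inner continuous_const).pow 2).measurable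
    have hinner : ∀ t : Fin b → ℝ, ENNReal.ofReal (t i ^ 2 * ‖θ‖ ^ 2) ≤
        ∫⁻ z, ENNReal.ofReal (⟪Ph N t z i, θ⟫_ℝ ^ 2) ∂(Pz N) := by
      intro t
      have h1 : ∫⁻ z, ENNReal.ofReal (t i ^ 2 * ⟪z i, θ⟫_ℝ ^ 2) ∂(Pz N) =
          ENNReal.ofReal (t i ^ 2 * ‖θ‖ ^ 2) := by
        have h2 := (measurePreserving_eval (fun j => un (ball (N j))) i).lintegral_comp
          (f := fun y => ENNReal.ofReal (t i ^ 2 * ⟪y, θ⟫_ℝ ^ 2)) (by
            refine ENNReal.measurable_ofReal.comp ?_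
            exact (continuous_const.mul ((continuous_id.inner continuous_const).pow 2)).measurable)
        refine h2.trans ?_
        simp only [ENNReal.ofReal_mul (sq_nonneg (t i))]
        rw [lintegral_const_mul' _ _ ENNReal.ofReal_ne_top, hball]
      rw [← h1]
      refine lintegral_mono_ae ?_
      filter_upwards [ae_ball hN i] with z hz
      refine ENNReal.ofReal_le_ofReal ?_
      unfold Ph
      by_cases hz0 : z i = 0
      · rw [hz0]
        simp
      rw [inner_smul_left, mul_pow]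
      refine mul_le_mul_of_nonneg_right ?_ (sq_nonneg _)
      have hz1 : 0 < N i (z i) := (hN i).pos _ hz0
      have hz2 : N i (z i) ≤ 1 := hz
      rw [RCLike.conj_to_real, div_pow, le_div_iff₀ (by positivity)]
      have : N i (z i) ^ 2 ≤ 1 := pow_le_one₀ hz1.le hz2
      nlinarith [sq_nonneg (t i)]
    have hlow : ENNReal.ofReal (M ^ 2 / 2 * ‖θ‖ ^ 2) ≤
        ∫⁻ x, ENNReal.ofReal (⟪x i, θ⟫_ℝ ^ 2) ∂(un (bs N D)) := by
      rw [a5 _ hmeas]
      have hmt : Measurable fun t : Fin b → ℝ => ENNReal.ofReal (t i ^ 2 * ‖θ‖ ^ 2) := by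
        refine ENNReal.measurable_ofReal.comp ?_
        exact (((continuous_apply i).pow 2).mul continuous_const).measurable
      have h1 := mul_meas_ge_le_lintegral (μ := Pt m D) hmt (ENNReal.ofReal (M ^ 2 * ‖θ‖ ^ 2))
      have h2 : Pt m D {t | M ≤ t i} ≤ Pt m D {t | ENNReal.ofReal (M ^ 2 * ‖θ‖ ^ 2) ≤
          ENNReal.ofReal (t i ^ 2 * ‖θ‖ ^ 2)} := by
        refine measure_mono fun t (ht : M ≤ t i) => ?_
        refine ENNReal.ofReal_le_ofReal ?_
        exact mul_le_mul_of_nonneg_right (pow_le_pow_left₀ hM.le ht 2) (sq_nonneg _)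
      have h3 : ENNReal.ofReal (M ^ 2 / 2 * ‖θ‖ ^ 2) =
          ENNReal.ofReal (M ^ 2 * ‖θ‖ ^ 2) * (1 / 2) := by
        have : (1 / 2 : ℝ≥0∞) = ENNReal.ofReal (1 / 2) := by
          rw [ENNReal.ofReal_div_of_pos two_pos, ENNReal.ofReal_one]
          norm_num
        rw [this, ← ENNReal.ofReal_mul (by positivity)]
        congr 1
        ring
      rw [h3]
      calc ENNReal.ofReal (M ^ 2 * ‖θ‖ ^ 2) * (1 / 2) ≤
          ENNReal.ofReal (M ^ 2 * ‖θ‖ ^ 2) * Pt m D {t | ENNReal.ofReal (M ^ 2 * ‖θ‖ ^ 2) ≤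
          ENNReal.ofReal (t i ^ 2 * ‖θ‖ ^ 2)} := by gcongr; exact hP.trans h2
        _ ≤ ∫⁻ t, ENNReal.ofReal (t i ^ 2 * ‖θ‖ ^ 2) ∂(Pt m D) := h1
        _ ≤ _ := lintegral_mono fun t => hinner t
    have hfin : ∫⁻ x, ENNReal.ofReal (⟪x i, θ⟫_ℝ ^ 2) ∂(un (bs N D)) ≠ ∞ := by
      obtain ⟨R, hR, hR'⟩ := bs_bdd hN hD.comp i
      have h1 : ∀ᵐ x ∂(un (bs N D)), x ∈ bs N D :=
        Measure.ae_smul_measure (ae_restrict_mem (bs_meas hN hD.comp.isClosed)) _
      have h2 : ∫⁻ x, ENNReal.ofReal (⟪x i, θ⟫_ℝ ^ 2) ∂(un (bs N D)) ≤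
          ∫⁻ _, ENNReal.ofReal ((R * ‖θ‖) ^ 2) ∂(un (bs N D)) := by
        refine lintegral_mono_ae ?_
        filter_upwards [h1] with x hx
        refine ENNReal.ofReal_le_ofReal ?_
        rw [← sq_abs ⟪x i, θ⟫_ℝ]
        refine pow_le_pow_left₀ (abs_nonneg _) ?_ 2
        exact (abs_real_inner_le_norm _ _).trans
          (mul_le_mul_of_nonneg_right (hR' x hx) (norm_nonneg _))
      rw [lintegral_const, measure_univ, mul_one] at h2
      exact (h2.trans_lt ENNReal.ofReal_lt_top).ne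
    rw [integral_eq_lintegral_of_nonneg_ae (ae_of_all _ fun x => sq_nonneg _)]
    · exact (ENNReal.ofReal_le_iff_le_toReal hfin).1 hlow
    · exact (((continuous_apply i).inner continuous_const).pow 2).aestronglyMeasurable

end Pool.Agent.U810.UB
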